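import Pool.Agent.MWGR.StmtsA

/-!
# Block MWGR, row HHL: two neighbouring heavy letters commute
-/

set_option autoImplicit false

namespace Pool.Agent.MWGR.H58

open Pool.Agent.Helper14_MV Pool.Agent.Helper2_MV Pool.Agent.MVO Pool.Agent.MWL Pool.Agent.MWS
  Pool.Agent.MWH Pool.Agent.MWGR

theorem flatMap_rep (g : ℕ → List ℕ) (m c x : ℕ) (h : g c = [x]) :
    (List.replicate m c).flatMap g = List.replicate m x := by
  induction m with
  | zero => rfl
  | succ m ih => rw [List.replicate_succ, List.flatMap_cons, ih, h, List.replicate_succ]; rfl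

/-- `x` behind, `y` before -/
theorem caseB (hG : MWGP.GapStmt) {n : ℕ} {β : FIC} (hB : BG n (RR β)) (P D1 q : List ℕ)
    (x y : ℕ) (hy : y ∈ P)
    (hml : ∀ c ∈ y :: D1, 2 ≤ (P ++ x :: y :: (D1 ++ x :: q)).count c) :
    RR β (P ++ x :: y :: (D1 ++ x :: q)) (P ++ y :: x :: (D1 ++ x :: q)) := by
  have h1 : RR β (P ++ x :: y :: (D1 ++ x :: q))
      (P ++ (List.replicate (n + 1) x ++ (y :: (D1 ++ x :: q)))) := by
    have h := hB.it P [] (y :: D1) q x (by
      intro c hc
      have h0 := hml c (by simpa using hc)
      simpa using h0)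
    have e : P ++ x :: ([] ++ (List.replicate n x ++ (y :: D1 ++ x :: q))) =
        P ++ (List.replicate (n + 1) x ++ (y :: (D1 ++ x :: q))) := by
      rw [List.replicate_succ]; simp
    rw [e] at h
    simpa using h
  have h2 : RR β (P ++ (List.replicate (n + 1) x ++ (y :: (D1 ++ x :: q))))
      (P ++ (List.replicate (n + 1) x ++ (List.replicate (n + 1) y ++ (D1 ++ x :: q)))) := by
    have h := (hG n β hB.ga hB.rn (P ++ List.replicate (n + 1) x) (D1 ++ x :: q) y y
      (List.mem_append_left _ hy)).1
    simpa only [List.append_assoc] using h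
  have h3 : RR β (P ++ (List.replicate (n + 1) x ++ (List.replicate (n + 1) y ++ (D1 ++ x :: q))))
      (P ++ (List.replicate (n + 1) y ++ (List.replicate (n + 1) x ++ (D1 ++ x :: q)))) := by
    have h4 := RR.sub (fun i => if i = 0 then [x] else [y]) (show RR β _ _ from hB.rn)
    rw [List.flatMap_append, List.flatMap_append, flatMap_rep _ _ 0 x (by simp),
      flatMap_rep _ _ 1 y (by simp)] at h4
    have h5 := ((RR.refl P).append h4).append (RR.refl (β := β) (D1 ++ x :: q))
    simpa only [List.append_assoc] using h5
  have h4 : RR β (P ++ y :: (List.replicate (n + 1) x ++ (D1 ++ x :: q)))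
      (P ++ (List.replicate (n + 1) y ++ (List.replicate (n + 1) x ++ (D1 ++ x :: q)))) :=
    (hG n β hB.ga hB.rn P (List.replicate (n + 1) x ++ (D1 ++ x :: q)) y y hy).1
  have h5 : RR β (P ++ y :: x :: (D1 ++ x :: q))
      (P ++ y :: (List.replicate (n + 1) x ++ (D1 ++ x :: q))) := by
    have h := hB.it (P ++ [y]) [] D1 q x (by
      intro c hc
      have h0 := hml c (List.mem_cons_of_mem _ (by simpa using hc))
      simp only [List.count_append, List.count_cons, List.nil_append, List.count_nil] at h0 ⊢
      omega)
    have e : P ++ [y] ++ x :: ([] ++ (List.replicate n x ++ (D1 ++ x :: q))) =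
        P ++ y :: (List.replicate (n + 1) x ++ (D1 ++ x :: q)) := by
      rw [List.replicate_succ]; simp
    have e' : P ++ [y] ++ x :: ([] ++ (D1 ++ x :: q)) = P ++ y :: x :: (D1 ++ x :: q) := by simp
    rw [e, e'] at h
    exact h
  exact β.trans (β.trans (β.trans h1 h2) h3) (β.symm (β.trans h5 h4))

/-- both letters behind -/
theorem caseF {n : ℕ} {β : FIC} (hB : BG n (RR β)) (P D suf : List ℕ) (x y : ℕ) (hxy : x ≠ y)
    (hx : x ∈ D) (hy : y ∈ D)
    (hml : ∀ c ∈ D, 2 ≤ (P ++ x :: y :: (D ++ suf)).count c) :
    RR β (P ++ x :: y :: (D ++ suf)) (P ++ y :: x :: (D ++ suf)) := by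
  obtain ⟨D1, D2, hD⟩ := List.append_of_mem hx
  have hy2 : y ∈ D1 ∨ y ∈ D2 := by
    rw [hD, List.mem_append, List.mem_cons] at hy
    rcases hy with h | h | h
    · exact Or.inl h
    · exact absurd h.symm hxy
    · exact Or.inr h
  rcases hy2 with hy2 | hy2
  · obtain ⟨P1, c, hP1⟩ := List.append_of_mem hy2
    have h := hB.f P P1 c (D2 ++ suf) y x (by
      intro a ha
      have h1 := hml a (by rw [hD, hP1]; simp [ha])
      rw [hD, hP1] at h1
      simp only [List.append_assoc, List.cons_append, List.count_append, List.count_cons] at h1 ⊢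
      omega)
    rw [hD, hP1]
    have h2 := RR.symm h
    simpa only [List.append_assoc, List.cons_append] using h2
  · obtain ⟨c, Q, hQ⟩ := List.append_of_mem hy2
    have h := hB.f P D1 c (Q ++ suf) x y (by
      intro a ha
      have h1 := hml a (by rw [hD, hQ]; simp [ha])
      rw [hD, hQ] at h1
      simp only [List.append_assoc, List.cons_append, List.count_append, List.count_cons] at h1 ⊢
      omega)
    rw [hD, hQ]
    simpa only [List.append_assoc, List.cons_append] using h

/-- **HHL** -/
theorem hhl (hG : MWGP.GapStmt) : HhlStmt := by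
  intro n β hB H pre suf A D x y hok hx hy
  have hml : ∀ c ∈ A ++ x :: y :: D, 2 ≤ (Wd pre suf (A ++ x :: y :: D)).count c := by
    intro c hc
    unfold Wd
    rw [List.count_append, List.count_append]
    by_cases hcH : c ∈ H
    · have := hok.hv c hcH
      omega
    · obtain ⟨h1, -, h3⟩ := hok.lt c hc hcH
      have := List.count_pos_iff.2 h3
      omega
  have ew : ∀ a b : ℕ, Wd pre suf (A ++ a :: b :: D) = (pre ++ A) ++ a :: b :: (D ++ suf) := by
    intro a b; unfold Wd; simp
  have hcx := hok.hv x hx
  have hcy := hok.hv y hy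
  rw [ew] at hml
  rw [ew, ew]
  by_cases hxy : x = y
  · subst hxy; exact RR.refl _
  have hcx2 : 1 ≤ A.count x + D.count x := by
    simp only [List.count_append, List.count_cons, beq_self_eq_true, if_true,
      beq_iff_eq, if_neg (Ne.symm hxy)] at hcx
    omega
  have hcy2 : 1 ≤ A.count y + D.count y := by
    simp only [List.count_append, List.count_cons, beq_self_eq_true, if_true,
      beq_iff_eq, if_neg hxy] at hcy
    omega
  by_cases hxD : x ∈ D
  · by_cases hyD : y ∈ D
    · exact caseF hB (pre ++ A) D suf x y hxy hxD hyD (fun c hc => hml c (by simp [hc]))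
    · have hyA : y ∈ A := by
        apply List.count_pos_iff.1
        have := List.count_eq_zero.2 hyD
        omega
      obtain ⟨D1, D2, hD⟩ := List.append_of_mem hxD
      have h := caseB hG hB (pre ++ A) D1 (D2 ++ suf) x y (List.mem_append_right _ hyA) (by
        intro c hc
        have h1 := hml c (by
          rw [hD]
          rcases List.mem_cons.1 hc with h | h <;> simp [h])
        rw [hD] at h1
        simpa only [List.append_assoc, List.cons_append] using h1)
      rw [hD]
      simpa only [List.append_assoc, List.cons_append] using h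
  · have hxA : x ∈ A := by
      apply List.count_pos_iff.1
      have := List.count_eq_zero.2 hxD
      omega
    by_cases hyD : y ∈ D
    · obtain ⟨D1, D2, hD⟩ := List.append_of_mem hyD
      have h := caseB hG hB (pre ++ A) D1 (D2 ++ suf) y x (List.mem_append_right _ hxA) (by
        intro c hc
        have h1 := hml c (by
          rw [hD]
          rcases List.mem_cons.1 hc with h | h <;> simp [h])
        rw [hD] at h1
        simp only [List.append_assoc, List.cons_append, List.count_append,
          List.count_cons] at h1 ⊢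
        omega)
      rw [hD]
      have h2 := RR.symm h
      simpa only [List.append_assoc, List.cons_append] using h2
    · have hyA : y ∈ A := by
        apply List.count_pos_iff.1
        have := List.count_eq_zero.2 hyD
        omega
      exact (hG n β hB.ga hB.rn (pre ++ A) (D ++ suf) x y
        (List.mem_append_right _ hxA)).2 (List.mem_append_right _ hyA)

end Pool.Agent.MWGR.H58
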